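import Mathlib

namespace Pool.Agent.Lib.MP_5d4057_al

open Matrix

def J (m : ℕ) : Matrix (Fin (m + 1)) (Fin (m + 1)) ℂ :=
  Matrix.diagonal fun i => if i = Fin.last m then -1 else 1

theorem unitary_mul {m : ℕ} {g h K : Matrix (Fin m) (Fin m) ℂ} (hg : gᴴ * K * g = K)
    (hh : hᴴ * K * h = K) : (g * h)ᴴ * K * (g * h) = K := by
  calc _ = hᴴ * (gᴴ * K * g) * h := by
        rw [conjTranspose_mul]; simp only [Matrix.mul_assoc]
    _ = _ := by rw [hg, hh]

theorem unitary_inv {m : ℕ} {g h K : Matrix (Fin m) (Fin m) ℂ} (hg : gᴴ * K * g = K)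
    (h1 : g * h = 1) : hᴴ * K * h = K := by
  calc _ = hᴴ * (gᴴ * K * g) * h := by rw [hg]
    _ = (g * h)ᴴ * K * (g * h) := by
        rw [conjTranspose_mul]; simp only [Matrix.mul_assoc]
    _ = _ := by rw [h1]; simp

def PreservesJ (m : ℕ) (g : SpecialLinearGroup (Fin (m + 1)) ℂ) : Prop :=
  g.1ᴴ * J m * g.1 = J m

theorem PreservesJ.mul {m : ℕ} {g h : SpecialLinearGroup (Fin (m + 1)) ℂ}
    (hg : PreservesJ m g) (hh : PreservesJ m h) : PreservesJ m (g * h) := unitary_mul hg hh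

theorem PreservesJ.one {m : ℕ} : PreservesJ m 1 := by simp [PreservesJ]

theorem PreservesJ.inv {m : ℕ} {g : SpecialLinearGroup (Fin (m + 1)) ℂ}
    (hg : PreservesJ m g) : PreservesJ m g⁻¹ :=
  unitary_inv hg (congrArg Subtype.val (mul_inv_cancel g))

def SU (m : ℕ) : Subgroup (SpecialLinearGroup (Fin (m + 1)) ℂ) where
  carrier := {g | PreservesJ m g}
  mul_mem' := PreservesJ.mul
  one_mem' := PreservesJ.one
  inv_mem' := PreservesJ.inv

def IsLattice {G : Type} [Group G] [TopologicalSpace G] (Γ : Subgroup G) : Prop :=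
  DiscreteTopology Γ ∧
    ∃ μ : @MeasureTheory.Measure (G ⧸ Γ) (borel (G ⧸ Γ)),
      μ ≠ 0 ∧ μ Set.univ ≠ ⊤ ∧
        ∀ (g : G) (s : Set (G ⧸ Γ)), @MeasurableSet (G ⧸ Γ) (borel (G ⧸ Γ)) s →
          μ ((fun x => g • x) ⁻¹' s) = μ s

noncomputable def cayleyMatrix : Matrix (Fin 2) (Fin 2) ℂ :=
  (1 + Complex.I)⁻¹ • !![1, -Complex.I; 1, Complex.I]

theorem one_add_I_sq : (1 + Complex.I) ^ 2 = 2 * Complex.I := by
  ring_nf; rw [Complex.I_sq]; ring

theorem det_cayleyMatrix : cayleyMatrix.det = 1 := by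
  rw [cayleyMatrix, det_smul, det_fin_two_of, Fintype.card_fin, inv_pow, one_add_I_sq]
  field_simp
  ring

noncomputable def cayleySL : SpecialLinearGroup (Fin 2) ℂ := ⟨cayleyMatrix, det_cayleyMatrix⟩

theorem J_one : J 1 = !![1, 0; 0, -1] := by
  ext i j
  fin_cases i <;> fin_cases j <;> simp [J]

theorem inv_mul_conj : (starRingEnd ℂ) ((1 + Complex.I)⁻¹) * (1 + Complex.I)⁻¹ = 1 / 2 := by
  rw [← Complex.normSq_eq_conj_mul_self, Complex.normSq_inv]
  simp [Complex.normSq_apply]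
  norm_num

theorem cayley_J : cayleyMatrixᴴ * J 1 * cayleyMatrix = !![0, -Complex.I; Complex.I, 0] := by
  have h : cayleyMatrixᴴ = (starRingEnd ℂ) ((1 + Complex.I)⁻¹) • !![1, 1; Complex.I, -Complex.I] := by
    ext i j
    fin_cases i <;> fin_cases j <;> simp [cayleyMatrix]
  rw [h, J_one, cayleyMatrix, Matrix.smul_mul, Matrix.smul_mul, Matrix.mul_smul, smul_smul, inv_mul_conj]
  ext i j
  fin_cases i <;> fin_cases j <;> simp <;> ring

theorem real_pres (g : SpecialLinearGroup (Fin 2) ℝ) :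
    (g.1.map Complex.ofRealHom)ᴴ * !![0, -Complex.I; Complex.I, 0] * (g.1.map Complex.ofRealHom) =
      !![0, -Complex.I; Complex.I, 0] := by
  have hd : ((g.1 0 0 : ℂ)) * (g.1 1 1 : ℂ) - (g.1 0 1 : ℂ) * (g.1 1 0 : ℂ) = 1 := by
    have := g.2
    rw [det_fin_two] at this
    exact_mod_cast this
  ext i j
  fin_cases i <;> fin_cases j <;>
    simp [Matrix.mul_apply, Fin.sum_univ_two]
  · ring
  · linear_combination (-Complex.I) * hd
  · linear_combination (Complex.I) * hd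
  · ring

noncomputable def cayleyConj :
    SpecialLinearGroup (Fin 2) ℝ →* SpecialLinearGroup (Fin 2) ℂ :=
  (MulAut.conj cayleySL).toMonoidHom.comp (SpecialLinearGroup.map Complex.ofRealHom)

theorem cayleyConj_mem (g : SpecialLinearGroup (Fin 2) ℝ) : cayleyConj g ∈ SU 1 := by
  have h1 : cayleySL.1 * (cayleySL⁻¹).1 = 1 := congrArg Subtype.val (mul_inv_cancel cayleySL)
  have h2 : (cayleyConj g).1 =
      cayleySL.1 * (g.1.map Complex.ofRealHom) * (cayleySL⁻¹).1 := rfl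
  show (cayleyConj g).1ᴴ * J 1 * (cayleyConj g).1 = J 1
  have h3 : cayleySL.1ᴴ * J 1 * cayleySL.1 = !![0, -Complex.I; Complex.I, 0] := cayley_J
  calc (cayleyConj g).1ᴴ * J 1 * (cayleyConj g).1
      = (cayleySL⁻¹).1ᴴ * ((g.1.map Complex.ofRealHom)ᴴ *
          (cayleySL.1ᴴ * J 1 * cayleySL.1) * (g.1.map Complex.ofRealHom)) * (cayleySL⁻¹).1 := by
        rw [h2, conjTranspose_mul, conjTranspose_mul]; simp only [Matrix.mul_assoc]
    _ = (cayleySL⁻¹).1ᴴ * (cayleySL.1ᴴ * J 1 * cayleySL.1) * (cayleySL⁻¹).1 := by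
        rw [h3, real_pres]
    _ = (cayleySL.1 * (cayleySL⁻¹).1)ᴴ * J 1 * (cayleySL.1 * (cayleySL⁻¹).1) := by
        rw [conjTranspose_mul]; simp only [Matrix.mul_assoc]
    _ = J 1 := by rw [h1]; simp

noncomputable def cayley : SpecialLinearGroup (Fin 2) ℝ →* SU 1 :=
  cayleyConj.codRestrict (SU 1) cayleyConj_mem

def IsArithmeticSL2 (Δ : Subgroup (SU 1)) : Prop :=
  ∃ Λ : Subgroup (SpecialLinearGroup (Fin 2) ℤ), Λ.FiniteIndex ∧
    ∀ g : SU 1, g ∈ Δ ↔
      ∃ l ∈ Λ, g.1.1 * cayleyMatrix = cayleyMatrix * l.1.map (fun n : ℤ => (n : ℂ))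

theorem isArithmetic_map (Λ : Subgroup (SpecialLinearGroup (Fin 2) ℤ)) (hΛ : Λ.FiniteIndex) :
    IsArithmeticSL2 (Λ.map (cayley.comp (SpecialLinearGroup.map (Int.castRingHom ℝ)))) := by
  refine ⟨Λ, hΛ, fun g => ?_⟩
  have h1 : (cayleySL⁻¹).1 * cayleySL.1 = 1 := congrArg Subtype.val (inv_mul_cancel cayleySL)
  have h2 : cayleySL.1 * (cayleySL⁻¹).1 = 1 := congrArg Subtype.val (mul_inv_cancel cayleySL)
  have key : ∀ l : SpecialLinearGroup (Fin 2) ℤ,
      (cayley (SpecialLinearGroup.map (Int.castRingHom ℝ) l)).1.1 =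
        cayleySL.1 * (l.1.map (fun n : ℤ => (n : ℂ))) * (cayleySL⁻¹).1 := by
    intro l
    show cayleySL.1 * ((l.1.map (Int.castRingHom ℝ)).map Complex.ofRealHom) * (cayleySL⁻¹).1 = _
    congr 2
  constructor
  · rintro ⟨l, hl, rfl⟩
    refine ⟨l, hl, ?_⟩
    show (cayley (SpecialLinearGroup.map (Int.castRingHom ℝ) l)).1.1 * cayleySL.1 = _
    rw [key, Matrix.mul_assoc, h1, Matrix.mul_one]
    rfl
  · rintro ⟨l, hl, h⟩
    refine ⟨l, hl, Subtype.ext (Subtype.ext ?_)⟩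
    show (cayley (SpecialLinearGroup.map (Int.castRingHom ℝ) l)).1.1 = g.1.1
    rw [key]
    have h' : g.1.1 * cayleySL.1 = cayleySL.1 * l.1.map (fun n : ℤ => (n : ℂ)) := h
    rw [← h', Matrix.mul_assoc, h2, Matrix.mul_one]

theorem map_injective {R S : Type} [CommRing R] [CommRing S] (f : R →+* S)
    (hf : Function.Injective f) :
    Function.Injective (SpecialLinearGroup.map (n := Fin 2) f) := by
  intro a b h
  ext i j
  have := congrArg (fun g : SpecialLinearGroup (Fin 2) S => g.1 i j) h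
  exact hf this

theorem cayley_injective : Function.Injective cayley := by
  intro a b h
  have h1 : cayleyConj a = cayleyConj b := congrArg Subtype.val h
  have h2 := (MulAut.conj cayleySL).injective h1
  exact map_injective _ Complex.ofRealHom.injective h2

theorem cayley_surjective : Function.Surjective cayley := by
  intro h
  have hh : h.1.1ᴴ * J 1 * h.1.1 = J 1 := h.2
  let g : SpecialLinearGroup (Fin 2) ℂ := cayleySL⁻¹ * h.1 * cayleySL
  have h1 : cayleySL.1 * (cayleySL⁻¹).1 = 1 := congrArg Subtype.val (mul_inv_cancel cayleySL)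
  have h3 : cayleySL.1ᴴ * J 1 * cayleySL.1 = !![0, -Complex.I; Complex.I, 0] := cayley_J
  have hg : g.1ᴴ * !![0, -Complex.I; Complex.I, 0] * g.1 = !![0, -Complex.I; Complex.I, 0] := by
    have h2 : g.1 = (cayleySL⁻¹).1 * h.1.1 * cayleySL.1 := rfl
    calc g.1ᴴ * !![0, -Complex.I; Complex.I, 0] * g.1
        = cayleySL.1ᴴ * (h.1.1ᴴ * ((cayleySL.1 * (cayleySL⁻¹).1)ᴴ * J 1 *
            (cayleySL.1 * (cayleySL⁻¹).1)) * h.1.1) * cayleySL.1 := by
          rw [← h3, h2, conjTranspose_mul, conjTranspose_mul, conjTranspose_mul]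
          simp only [Matrix.mul_assoc]
      _ = cayleySL.1ᴴ * J 1 * cayleySL.1 := by rw [h1]; simp [hh]
      _ = _ := h3
  have hd : g.1 0 0 * g.1 1 1 - g.1 0 1 * g.1 1 0 = 1 := by
    have := g.2
    rwa [det_fin_two] at this
  have e00 := congrFun (congrFun hg 0) 0
  have e01 := congrFun (congrFun hg 0) 1
  have e10 := congrFun (congrFun hg 1) 0
  have e11 := congrFun (congrFun hg 1) 1
  simp only [Matrix.mul_apply, Fin.sum_univ_two, conjTranspose_apply, RCLike.star_def,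
    of_apply, cons_val_zero, cons_val_one, cons_val', cons_val_fin_one] at e00 e01 e10 e11
  have f00 : (starRingEnd ℂ) (g.1 0 0) * g.1 1 0 = (starRingEnd ℂ) (g.1 1 0) * g.1 0 0 := by
    linear_combination Complex.I * e00 + ((starRingEnd ℂ) (g.1 0 0) * g.1 1 0 - (starRingEnd ℂ) (g.1 1 0) * g.1 0 0) * Complex.I_sq
  have f01 : (starRingEnd ℂ) (g.1 0 0) * g.1 1 1 - (starRingEnd ℂ) (g.1 1 0) * g.1 0 1 = 1 := by
    linear_combination Complex.I * e01 + ((starRingEnd ℂ) (g.1 0 0) * g.1 1 1 - (starRingEnd ℂ) (g.1 1 0) * g.1 0 1 - 1) * Complex.I_sq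
  have f10 : (starRingEnd ℂ) (g.1 1 1) * g.1 0 0 - (starRingEnd ℂ) (g.1 0 1) * g.1 1 0 = 1 := by
    linear_combination (-Complex.I) * e10 + ((starRingEnd ℂ) (g.1 1 1) * g.1 0 0 - (starRingEnd ℂ) (g.1 0 1) * g.1 1 0 - 1) * Complex.I_sq
  have f11 : (starRingEnd ℂ) (g.1 0 1) * g.1 1 1 = (starRingEnd ℂ) (g.1 1 1) * g.1 0 1 := by
    linear_combination Complex.I * e11 + ((starRingEnd ℂ) (g.1 0 1) * g.1 1 1 - (starRingEnd ℂ) (g.1 1 1) * g.1 0 1) * Complex.I_sq
  have r : ∀ i j, (starRingEnd ℂ) (g.1 i j) = g.1 i j := by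
    intro i j
    fin_cases i <;> fin_cases j
    · show (starRingEnd ℂ) (g.1 0 0) = g.1 0 0
      linear_combination (-(starRingEnd ℂ) (g.1 0 0)) * hd - g.1 0 1 * f00 + g.1 0 0 * f01
    · show (starRingEnd ℂ) (g.1 0 1) = g.1 0 1
      linear_combination (-(starRingEnd ℂ) (g.1 0 1)) * hd + g.1 0 0 * f11 + g.1 0 1 * f10
    · show (starRingEnd ℂ) (g.1 1 0) = g.1 1 0
      linear_combination (-(starRingEnd ℂ) (g.1 1 0)) * hd - g.1 1 1 * f00 + g.1 1 0 * f01
    · show (starRingEnd ℂ) (g.1 1 1) = g.1 1 1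
      linear_combination (-(starRingEnd ℂ) (g.1 1 1)) * hd + g.1 1 0 * f11 + g.1 1 1 * f10
  have hre : ∀ i j, (((g.1 i j).re : ℝ) : ℂ) = g.1 i j := fun i j => Complex.conj_eq_iff_re.1 (r i j)
  let g' : SpecialLinearGroup (Fin 2) ℝ := ⟨Matrix.of fun i j => (g.1 i j).re, by
    rw [det_fin_two]
    have : (((g.1 0 0).re * (g.1 1 1).re - (g.1 0 1).re * (g.1 1 0).re : ℝ) : ℂ) = 1 := by
      push_cast
      rw [hre, hre, hre, hre, hd]
    exact_mod_cast this⟩
  refine ⟨g', Subtype.ext ?_⟩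
  show cayleySL * (SpecialLinearGroup.map Complex.ofRealHom g') * cayleySL⁻¹ = h.1
  have : SpecialLinearGroup.map Complex.ofRealHom g' = g := by
    ext i j
    exact hre i j
  rw [this]
  show cayleySL * (cayleySL⁻¹ * h.1 * cayleySL) * cayleySL⁻¹ = h.1
  group

end Pool.Agent.Lib.MP_5d4057_al
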