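import Pool.Agent.Lib.MP_5d4057_al.SUtwo

namespace Pool.Agent.Lib.MP_5d4057_al

open Matrix

def E (p q : Fin 3 → ℂ) : Matrix (Fin 3) (Fin 3) ℂ := vecMulVec p (cov q)

theorem E_mul (p q r s : Fin 3 → ℂ) : E p q * E r s = (H r q) • E p s := by
  rw [E, E, vecMulVec_mul_vecMulVec, cov_dot, E]
  ext i j
  simp [vecMulVec_apply]
  ring

theorem E_adj (p q : Fin 3 → ℂ) : (E p q)ᴴ * J 2 = J 2 * E q p := by
  rw [J_two]
  ext i j
  fin_cases i <;> fin_cases j <;>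
    simp [E, cov, Matrix.mul_apply, Fin.sum_univ_three, mul_comm]

theorem E_mulVec (p q v : Fin 3 → ℂ) : E p q *ᵥ v = H v q • p := by
  rw [E, vecMulVec_mulVec, cov_dot]; simp

noncomputable def hypM (a b : Fin 3 → ℂ) (l : ℝ) : Matrix (Fin 3) (Fin 3) ℂ :=
  1 + (((l : ℂ) - 1) / H a b) • E a b + (((l : ℂ)⁻¹ - 1) / H b a) • E b a

theorem det_E (c : ℂ) (a b : Fin 3 → ℂ) : (1 + c • E a b).det = 1 + c * H a b := by
  have : c • E a b = replicateCol Unit (c • a) * replicateRow Unit (cov b) := by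
    rw [← vecMulVec_eq, E, smul_vecMulVec]
  rw [this, det_one_add_replicateCol_mul_replicateRow, cov_dot, H_smul_left]

theorem gen_mul {P Q : Matrix (Fin 3) (Fin 3) ℂ} {s t : ℂ} (hP : P * P = s • P)
    (hQ : Q * Q = t • Q) (hPQ : P * Q = 0) (hQP : Q * P = 0) (c d c' d' : ℂ) :
    (1 + c • P + d • Q) * (1 + c' • P + d' • Q) =
      1 + (c + c' + c * c' * s) • P + (d + d' + d * d' * t) • Q := by
  simp only [Matrix.add_mul, Matrix.mul_add, Matrix.one_mul, Matrix.mul_one, Matrix.smul_mul,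
    Matrix.mul_smul, hP, hQ, hPQ, hQP, smul_zero]
  module

theorem hypM_split {a b : Fin 3 → ℂ} (hb : H b b = 0) (l : ℝ) : hypM a b l =
    (1 + (((l : ℂ) - 1) / H a b) • E a b) * (1 + (((l : ℂ)⁻¹ - 1) / H b a) • E b a) := by
  simp only [hypM, Matrix.add_mul, Matrix.mul_add, Matrix.one_mul, Matrix.mul_one,
    Matrix.smul_mul, Matrix.mul_smul, E_mul, hb, zero_smul, smul_zero]
  module

theorem hypM_det {a b : Fin 3 → ℂ} (hb : H b b = 0) (hab : H a b ≠ 0) (hba : H b a ≠ 0)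
    {l : ℝ} (hl : l ≠ 0) : (hypM a b l).det = 1 := by
  have hl' : (l : ℂ) ≠ 0 := by exact_mod_cast hl
  rw [hypM_split hb, det_mul, det_E, det_E, div_mul_cancel₀ _ hab, div_mul_cancel₀ _ hba]
  simp [hl']

theorem hypM_mul {a b : Fin 3 → ℂ} (ha : H a a = 0) (hb : H b b = 0) (hab : H a b ≠ 0)
    (hba : H b a ≠ 0) (l m : ℝ) : hypM a b l * hypM a b m = hypM a b (l * m) := by
  have h1 : (((l * m : ℝ) : ℂ) - 1) / H a b = ((l : ℂ) - 1) / H a b + ((m : ℂ) - 1) / H a b +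
      ((l : ℂ) - 1) / H a b * (((m : ℂ) - 1) / H a b) * H a b := by
    field_simp; push_cast; ring
  have h2 : (((l * m : ℝ) : ℂ)⁻¹ - 1) / H b a = ((l : ℂ)⁻¹ - 1) / H b a + ((m : ℂ)⁻¹ - 1) / H b a +
      ((l : ℂ)⁻¹ - 1) / H b a * (((m : ℂ)⁻¹ - 1) / H b a) * H b a := by
    push_cast
    rw [mul_inv]
    generalize (l : ℂ)⁻¹ = x
    generalize (m : ℂ)⁻¹ = y
    field_simp; ring
  rw [hypM, hypM, hypM, h1, h2]
  exact gen_mul (E_mul a b a b) (E_mul b a b a) (by rw [E_mul, hb, zero_smul])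
    (by rw [E_mul, ha, zero_smul]) _ _ _ _

theorem hypM_one (a b : Fin 3 → ℂ) : hypM a b 1 = 1 := by
  simp [hypM]

theorem hypM_adj {a b : Fin 3 → ℂ} (l : ℝ) :
    (hypM a b l)ᴴ * J 2 = J 2 * hypM a b l⁻¹ := by
  rw [hypM, hypM, conjTranspose_add, conjTranspose_add, conjTranspose_smul, conjTranspose_smul,
    conjTranspose_one, Matrix.add_mul, Matrix.add_mul, Matrix.smul_mul, Matrix.smul_mul, E_adj, E_adj,
    Matrix.mul_add, Matrix.mul_add, Matrix.mul_smul, Matrix.mul_smul]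
  have h1 : star (((l : ℂ) - 1) / H a b) = (((l⁻¹ : ℝ) : ℂ)⁻¹ - 1) / H b a := by
    rw [← H_conj a b]
    simp
  have h2 : star (((l : ℂ)⁻¹ - 1) / H b a) = (((l⁻¹ : ℝ) : ℂ) - 1) / H a b := by
    rw [← H_conj b a]
    simp
  rw [h1, h2]
  simp only [Matrix.one_mul, Matrix.mul_one]
  abel

theorem hypM_unitary {a b : Fin 3 → ℂ} (ha : H a a = 0) (hb : H b b = 0) (hab : H a b ≠ 0)
    (hba : H b a ≠ 0) {l : ℝ} (hl : l ≠ 0) : (hypM a b l)ᴴ * J 2 * hypM a b l = J 2 := by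
  rw [hypM_adj, Matrix.mul_assoc, hypM_mul ha hb hab hba, inv_mul_cancel₀ hl, hypM_one, Matrix.mul_one]

noncomputable def hyp (a b : X) (h : a ≠ b) (l : ℝ) (hl : l ≠ 0) : SU 2 :=
  ⟨⟨hypM a.1 b.1 l, hypM_det b.2.2 (H_ne h) (H_ne h.symm) hl⟩,
    hypM_unitary a.2.2 b.2.2 (H_ne h) (H_ne h.symm) hl⟩

theorem hyp_pow (a b : X) (h : a ≠ b) (l : ℝ) (hl : l ≠ 0) (n : ℕ) :
    hyp a b h l hl ^ n = hyp a b h (l ^ n) (pow_ne_zero n hl) := by
  induction n with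
  | zero =>
    apply Subtype.ext; apply Subtype.ext
    show (1 : Matrix (Fin 3) (Fin 3) ℂ) = hypM a.1 b.1 (l ^ 0)
    rw [pow_zero, hypM_one]
  | succ n ih =>
    rw [pow_succ, ih]
    apply Subtype.ext; apply Subtype.ext
    show hypM a.1 b.1 (l ^ n) * hypM a.1 b.1 l = hypM a.1 b.1 (l ^ (n + 1))
    rw [hypM_mul a.2.2 b.2.2 (H_ne h) (H_ne h.symm), pow_succ]

theorem hypM_mulVec (a b v : Fin 3 → ℂ) (l : ℝ) : hypM a b l *ᵥ v =
    v + (((l : ℂ) - 1) / H a b * H v b) • a + (((l : ℂ)⁻¹ - 1) / H b a * H v a) • b := by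
  rw [hypM, add_mulVec, add_mulVec, one_mulVec, smul_mulVec, smul_mulVec, E_mulVec, E_mulVec,
    smul_smul, smul_smul]

theorem hyp_H_a (a b : X) (h : a ≠ b) (l : ℝ) (v : Fin 3 → ℂ) :
    H (hypM a.1 b.1 l *ᵥ v) a.1 = (l : ℂ)⁻¹ * H v a.1 := by
  rw [hypM_mulVec, H_add_left, H_add_left, H_smul_left, H_smul_left, a.2.2]
  have := H_ne h.symm
  field_simp
  ring

theorem hyp_H_b (a b : X) (h : a ≠ b) (l : ℝ) (v : Fin 3 → ℂ) :
    H (hypM a.1 b.1 l *ᵥ v) b.1 = (l : ℂ) * H v b.1 := by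
  rw [hypM_mulVec, H_add_left, H_add_left, H_smul_left, H_smul_left, b.2.2]
  have := H_ne h
  field_simp
  ring

theorem strong_aux (a b : X) (h : a ≠ b) {ε δ : ℝ} (hε : 0 < ε) (hδ : 0 < δ) (L : ℝ) (hL0 : L ≠ 0)
    (hL1 : 1 ≤ L) (hL2 : 9 / (ε * δ) < L) (x : X) (hδx : δ ≤ ‖H x.1 b.1‖) :
    ‖H (hyp a b h L hL0 • x).1 a.1‖ < ε := by
  have ea := act_H (hyp a b h L hL0) x a
  have eb := act_H (hyp a b h L hL0) x b
  have ea' : ‖H ((hyp a b h L hL0).1.1 *ᵥ x.1) a.1‖ = L⁻¹ * ‖H x.1 a.1‖ := by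
    show ‖H (hypM a.1 b.1 L *ᵥ x.1) a.1‖ = _
    rw [hyp_H_a a b h, norm_mul, norm_inv, Complex.norm_real, Real.norm_of_nonneg (by linarith)]
  have eb' : ‖H ((hyp a b h L hL0).1.1 *ᵥ x.1) b.1‖ = L * ‖H x.1 b.1‖ := by
    show ‖H (hypM a.1 b.1 L *ᵥ x.1) b.1‖ = _
    rw [hyp_H_b a b h, norm_mul, Complex.norm_real, Real.norm_of_nonneg (by linarith)]
  rw [ea'] at ea
  rw [eb'] at eb
  have b1 := H_bound x a
  have b2 := H_bound (hyp a b h L hL0 • x) b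
  have hc0 : 0 ≤ ‖((hyp a b h L hL0).1.1 *ᵥ x.1) 2‖ := norm_nonneg _
  have hq0 : 0 ≤ ‖H (hyp a b h L hL0 • x).1 a.1‖ := norm_nonneg _
  generalize ‖((hyp a b h L hL0).1.1 *ᵥ x.1) 2‖ = c at *
  generalize ‖H (hyp a b h L hL0 • x).1 a.1‖ = q at *
  generalize ‖H (hyp a b h L hL0 • x).1 b.1‖ = r at *
  generalize ‖H x.1 a.1‖ = t at *
  generalize ‖H x.1 b.1‖ = w at *
  have hLpos : 0 < L := by linarith
  have hc : L * δ ≤ 3 * c := by nlinarith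
  have h9 : 9 < L * (ε * δ) := by
    rwa [div_lt_iff₀ (by positivity)] at hL2
  have key : c * q * L ≤ 3 := by
    rw [← ea, mul_comm L⁻¹, mul_assoc, inv_mul_cancel₀ hL0, mul_one]
    exact b1
  by_contra hcon
  have hcon := not_lt.1 hcon
  have h5 : c * ε ≤ c * q := mul_le_mul_of_nonneg_left hcon hc0
  have h6 : c * ε * L ≤ 3 := (mul_le_mul_of_nonneg_right h5 hLpos.le).trans key
  have h7 : L * δ * ε ≤ 3 * c * ε := mul_le_mul_of_nonneg_right hc hε.le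
  have h8 : c * ε ≤ c * ε * L := le_mul_of_one_le_right (by positivity) hL1
  nlinarith

theorem strong (a b : X) (h : a ≠ b) (U V : Set X) (hU : IsOpen U) (ha : a ∈ U) (hV : IsOpen V)
    (hb : b ∈ V) : ∃ g : SU 2, ∀ n : ℕ, 1 ≤ n → ∀ x, x ∉ V → g ^ n • x ∈ U := by
  obtain ⟨ε, hε, hεU⟩ := nhd a U hU ha
  obtain ⟨δ, hδ, hδV⟩ := nhd b V hV hb
  obtain ⟨l, hl⟩ : ∃ l : ℝ, 1 ≤ l ∧ 9 / (ε * δ) < l :=
    ⟨max 1 (9 / (ε * δ) + 1), le_max_left _ _, lt_of_lt_of_le (by linarith) (le_max_right _ _)⟩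
  have hl0 : l ≠ 0 := by linarith [hl.1]
  refine ⟨hyp a b h l hl0, fun n hn x hx => ?_⟩
  rw [hyp_pow]
  have hL : l ≤ l ^ n := le_self_pow₀ hl.1 (by omega)
  apply hεU
  refine strong_aux a b h hε hδ (l ^ n) _ (hl.1.trans hL) (hl.2.trans_le hL) x ?_
  by_contra hc
  exact hx (hδV x (not_le.1 hc))

end Pool.Agent.Lib.MP_5d4057_al
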