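import Pool.Agent.Lib.MP_5d4057_al.Recur

namespace Pool.Agent.Lib.MP_5d4057_al

open Matrix Function

theorem cont_const (g : SU 2) : Continuous (fun x : X => g • x) := by
  have h1 : Continuous (fun x : X => ((g, x) : SU 2 × X)) :=
    Continuous.prodMk continuous_const continuous_id
  have h2 := continuous_act.comp h1
  exact h2

instance (Γ : Subgroup (SU 2)) : ContinuousConstSMul Γ X := ⟨fun γ => cont_const γ.1⟩

theorem exists_pair (Γ : Subgroup (SU 2)) (hΓ : IsLattice Γ) (k : ℕ) [Nontrivial (Fin k)]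
    (g : Fin k → Γ) : ∃ u : Fin k → Γ, Injective (FreeGroup.lift u) ∧
      Injective (FreeGroup.lift (fun i => u i * g i)) := by
  have := X_infinite
  refine exists_free_pair (X := X) (fun a b hab U V hU ha hV hb => ?_) k g
  obtain ⟨γ, hγ, h⟩ := approx Γ hΓ a b hab U V hU ha hV hb
  exact ⟨⟨γ, hγ⟩, h⟩

theorem exists_gens (Γ : Subgroup (SU 2)) (hfg : Γ.FG) :
    ∃ k : ℕ, ∃ g : Fin (k + 2) → Γ, Subgroup.closure (Set.range g) = ⊤ := by
  have h1 : Group.FG Γ := (Group.fg_iff_subgroup_fg Γ).2 hfg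
  obtain ⟨S, hS⟩ := h1
  obtain ⟨e⟩ : Nonempty (Fin S.card ≃ S) := ⟨S.equivFin.symm⟩
  refine ⟨S.card, Fin.append (fun i => (e i : Γ)) (fun _ => 1), ?_⟩
  rw [eq_top_iff, ← hS, Subgroup.closure_le]
  intro x hx
  apply Subgroup.subset_closure
  refine ⟨Fin.castAdd 2 (e.symm ⟨x, hx⟩), ?_⟩
  rw [Fin.append_left]
  simp

instance : Subsingleton (SU 0) := by
  have : Subsingleton (Fin (0 + 1)) := inferInstanceAs (Subsingleton (Fin 1))
  have : Subsingleton (SpecialLinearGroup (Fin (0 + 1)) ℂ) :=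
    SpecialLinearGroup.subsingleton_of_subsingleton
  exact ⟨fun a b => Subtype.ext (Subsingleton.elim _ _)⟩

theorem exists_lattice (m : ℕ) (hm : 1 ≤ m) :
    ∃ Δ : Subgroup (SU 1), IsArithmeticSL2 Δ ∧ Nonempty (FreeGroup (Fin (m + 1)) ≃* Δ) := by
  let ψ : SpecialLinearGroup (Fin 2) ℤ →* SU 1 :=
    cayley.comp (SpecialLinearGroup.map (Int.castRingHom ℝ))
  have hψ : Injective ψ := by
    intro a b h
    exact map_injective _ (by exact Int.cast_injective) (cayley_injective h)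
  refine ⟨(Lam m).map ψ, isArithmetic_map _ (Lam_finiteIndex m hm), ⟨?_⟩⟩
  exact (MonoidHom.ofInjective (gens_free m hm)).trans ((Lam m).equivMapOfInjective ψ hψ)

theorem main (Γ : Subgroup (SU 2)) (hΓ : IsLattice Γ) (hfg : Γ.FG) :
    ∃ Δ : Fin 2 → Subgroup (SU 1), (∀ j, IsArithmeticSL2 (Δ j)) ∧
      ∃ ι : ∀ j, SU 0 →* Δ j, (∀ j, Injective (ι j)) ∧
        ∃ ρ : Monoid.PushoutI ι →* SU 2, ρ.range = Γ ∧
          ∀ j, Injective (ρ.comp (Monoid.PushoutI.of j)) := by
  obtain ⟨k, g, hg⟩ := exists_gens Γ hfg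
  have : Nontrivial (Fin (k + 2)) := Fin.nontrivial_iff_two_le.2 (by omega)
  obtain ⟨u, hu1, hu2⟩ := exists_pair Γ hΓ (k + 2) g
  obtain ⟨Δ, hΔ, ⟨e⟩⟩ := exists_lattice (k + 1) (by omega)
  let f : Fin 2 → (Δ →* Γ) := fun j =>
    (FreeGroup.lift (if j = 0 then u else fun i => u i * g i)).comp e.symm.toMonoidHom
  have hf : ∀ j, Injective (f j) := by
    intro j
    have : Injective (FreeGroup.lift (if j = 0 then u else fun i => u i * g i)) := by
      split_ifs
      · exact hu1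
      · exact hu2
    exact this.comp e.symm.injective
  let ι : ∀ j : Fin 2, SU 0 →* (fun _ : Fin 2 => Δ) j := fun _ => 1
  let ρ : Monoid.PushoutI ι →* Γ := Monoid.PushoutI.lift f 1 (fun j => by ext x; simp [ι])
  have hρ : ∀ j x, ρ (Monoid.PushoutI.of j x) = f j x := fun j x => Monoid.PushoutI.lift_of _ _ _ _
  refine ⟨fun _ => Δ, fun _ => hΔ, ι, fun j a b _ => Subsingleton.elim a b, Γ.subtype.comp ρ, ?_, ?_⟩
  · have hs : ρ.range = ⊤ := by
      rw [eq_top_iff, ← hg, Subgroup.closure_le]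
      rintro _ ⟨i, rfl⟩
      have h0 : u i ∈ ρ.range := by
        refine ⟨Monoid.PushoutI.of (0 : Fin 2) (e (FreeGroup.of i)), ?_⟩
        rw [hρ]
        simp [f]
      have h1 : u i * g i ∈ ρ.range := by
        refine ⟨Monoid.PushoutI.of (1 : Fin 2) (e (FreeGroup.of i)), ?_⟩
        rw [hρ]
        simp [f]
      have := ρ.range.mul_mem (ρ.range.inv_mem h0) h1
      rwa [inv_mul_cancel_left] at this
    rw [← MonoidHom.map_range, hs, ← MonoidHom.range_eq_map, Subgroup.range_subtype]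
  · intro j a b h
    have h1 : ρ (Monoid.PushoutI.of j a) = ρ (Monoid.PushoutI.of j b) := Subtype.ext h
    rw [hρ, hρ] at h1
    exact hf j h1

end Pool.Agent.Lib.MP_5d4057_al
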