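import Mathlib

namespace Pool.Agent.Lib.MP_5d4057_al

open Function Set

theorem exists_avoid {X : Type*} [Infinite X] {Γ : Type*} [Group Γ] [MulAction Γ X] :
    ∀ (k : ℕ) (g : Fin k → Γ), ∃ b : Fin k → X, Injective b ∧ Injective (fun j => (g j)⁻¹ • b j) := by
  intro k
  induction k with
  | zero => intro g; exact ⟨fun i => i.elim0, fun i => i.elim0, fun i => i.elim0⟩
  | succ k ih =>
    intro g
    obtain ⟨b, hb, hb'⟩ := ih (fun i => g i.castSucc)
    have hfin : (range b ∪ range (fun j => (g (Fin.last k)) • (g j.castSucc)⁻¹ • b j)).Finite :=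
      (finite_range _).union (finite_range _)
    obtain ⟨x, hx⟩ := hfin.exists_notMem
    have hx1 : ∀ j, b j ≠ x := fun j h => hx (Or.inl ⟨j, h⟩)
    have hx2 : ∀ j, (g (Fin.last k)) • (g j.castSucc)⁻¹ • b j ≠ x := fun j h => hx (Or.inr ⟨j, h⟩)
    refine ⟨Fin.snoc b x, ?_, ?_⟩
    · intro i j hij
      induction i using Fin.lastCases with
      | last =>
        induction j using Fin.lastCases with
        | last => rfl
        | cast j => simp at hij; exact absurd hij.symm (hx1 j)
      | cast i =>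
        induction j using Fin.lastCases with
        | last => simp at hij; exact absurd hij (hx1 i)
        | cast j => simp at hij; rw [hb hij]
    · intro i j hij
      induction i using Fin.lastCases with
      | last =>
        induction j using Fin.lastCases with
        | last => rfl
        | cast j =>
          simp only [Fin.snoc_last, Fin.snoc_castSucc] at hij
          exact absurd (by rw [← hij, smul_inv_smul]) (hx2 j)
      | cast i =>
        induction j using Fin.lastCases with
        | last =>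
          simp only [Fin.snoc_last, Fin.snoc_castSucc] at hij
          exact absurd (by rw [hij, smul_inv_smul]) (hx2 i)
        | cast j =>
          simp only [Fin.snoc_castSucc] at hij
          rw [hb' hij]

theorem exists_inj_avoid {X : Type*} [Infinite X] (k : ℕ) (F : Set X) (hF : F.Finite) :
    ∃ a : Fin k → X, Injective a ∧ ∀ i, a i ∉ F := by
  have : Infinite (Fᶜ : Set X) := hF.infinite_compl.to_subtype
  let f : Fin k ↪ (Fᶜ : Set X) := Fin.valEmbedding.trans (Infinite.natEmbedding _)
  exact ⟨fun i => (f i : X), fun i j h => f.injective (Subtype.ext h), fun i => (f i).2⟩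

theorem exists_free_pair {X : Type*} [Infinite X] [TopologicalSpace X] [T2Space X]
    {Γ : Type} [Group Γ] [MulAction Γ X] [ContinuousConstSMul Γ X]
    (hD : ∀ a b : X, a ≠ b → ∀ U V : Set X, IsOpen U → a ∈ U → IsOpen V → b ∈ V →
      ∃ γ : Γ, ∀ x, x ∉ V → γ • x ∈ U)
    (k : ℕ) [Nontrivial (Fin k)] (g : Fin k → Γ) :
    ∃ u : Fin k → Γ, Injective (FreeGroup.lift u) ∧
      Injective (FreeGroup.lift (fun i => u i * g i)) := by
  obtain ⟨b, hb, hb'⟩ := exists_avoid (X := X) k g
  obtain ⟨a, ha, haF⟩ := exists_inj_avoid (X := X) k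
    (range b ∪ range (fun j => (g j)⁻¹ • b j)) ((finite_range _).union (finite_range _))
  have hab : ∀ i j, a i ≠ b j := fun i j h => haF i (Or.inl ⟨j, h.symm⟩)
  have hab' : ∀ i j, a i ≠ (g j)⁻¹ • b j := fun i j h => haF i (Or.inr ⟨j, h.symm⟩)
  obtain ⟨W1, hW1, hd1⟩ := ((finite_range a).union (finite_range b)).t2_separation
  obtain ⟨W2, hW2, hd2⟩ := ((finite_range a).union (finite_range (fun j => (g j)⁻¹ • b j))).t2_separation
  let U : Fin k → Set X := fun i => W1 (a i) ∩ W2 (a i)
  let V : Fin k → Set X := fun i => W1 (b i) ∩ (fun x => (g i)⁻¹ • x) ⁻¹' W2 ((g i)⁻¹ • b i)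
  have hUo : ∀ i, IsOpen (U i) := fun i => (hW1 _).2.inter (hW2 _).2
  have hVo : ∀ i, IsOpen (V i) := fun i =>
    (hW1 _).2.inter ((hW2 _).2.preimage (continuous_const_smul _))
  have haU : ∀ i, a i ∈ U i := fun i => ⟨(hW1 _).1, (hW2 _).1⟩
  have hbV : ∀ i, b i ∈ V i := fun i => ⟨(hW1 _).1, (hW2 _).1⟩
  choose u hu using fun i => hD (a i) (b i) (hab i i) (U i) (V i) (hUo i) (haU i) (hVo i) (hbV i)
  have disj1 : ∀ {x y : X}, x ∈ range a ∪ range b → y ∈ range a ∪ range b → x ≠ y →
      Disjoint (W1 x) (W1 y) := fun hx hy h => hd1 hx hy h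
  have disj2 : ∀ {x y : X}, x ∈ range a ∪ range (fun j => (g j)⁻¹ • b j) →
      y ∈ range a ∪ range (fun j => (g j)⁻¹ • b j) → x ≠ y → Disjoint (W2 x) (W2 y) :=
    fun hx hy h => hd2 hx hy h
  have UU : ∀ i j, i ≠ j → Disjoint (U i) (U j) := fun i j hij =>
    (disj1 (Or.inl ⟨i, rfl⟩) (Or.inl ⟨j, rfl⟩) (fun h => hij (ha h))).mono
      inter_subset_left inter_subset_left
  have VV : ∀ i j, i ≠ j → Disjoint (V i) (V j) := fun i j hij =>
    (disj1 (Or.inr ⟨i, rfl⟩) (Or.inr ⟨j, rfl⟩) (fun h => hij (hb h))).mono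
      inter_subset_left inter_subset_left
  have UV : ∀ i j, Disjoint (U i) (V j) := fun i j =>
    (disj1 (Or.inl ⟨i, rfl⟩) (Or.inr ⟨j, rfl⟩) (hab i j)).mono
      inter_subset_left inter_subset_left
  have hinv : ∀ i x, x ∉ U i → (u i)⁻¹ • x ∈ V i := by
    intro i x hx
    by_contra hc
    have := hu i _ hc
    rw [smul_inv_smul] at this
    exact hx this
  refine ⟨u, ?_, ?_⟩
  · apply FreeGroup.injective_lift_of_ping_pong u U V
    · exact fun i => ⟨a i, haU i⟩
    · exact fun i j hij => UU i j hij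
    · exact fun i j hij => VV i j hij
    · exact UV
    · intro i
      rintro _ ⟨x, hx, rfl⟩
      exact hu i x hx
    · intro i
      rintro _ ⟨x, hx, rfl⟩
      exact hinv i x hx
  · let V' : Fin k → Set X := fun i => (fun x => g i • x) ⁻¹' V i
    have hV' : ∀ i x, x ∈ V' i → x ∈ W2 ((g i)⁻¹ • b i) := by
      intro i x hx
      have := hx.2
      simpa using this
    apply FreeGroup.injective_lift_of_ping_pong (fun i => u i * g i) U V'
    · exact fun i => ⟨a i, haU i⟩
    · exact fun i j hij => UU i j hij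
    · intro i j hij
      exact (disj2 (Or.inr ⟨i, rfl⟩) (Or.inr ⟨j, rfl⟩) (fun h => hij (hb' h))).mono
        (hV' i) (hV' j)
    · intro i j
      exact (disj2 (Or.inl ⟨i, rfl⟩) (Or.inr ⟨j, rfl⟩) (hab' i j)).mono
        inter_subset_right (hV' j)
    · intro i
      rintro _ ⟨x, hx, rfl⟩
      show (u i * g i) • x ∈ U i
      rw [mul_smul]
      exact hu i _ hx
    · intro i
      rintro _ ⟨x, hx, rfl⟩
      show g i • ((u i * g i)⁻¹ • x) ∈ V i
      rw [mul_inv_rev, mul_smul, smul_inv_smul]
      exact hinv i x hx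

end Pool.Agent.Lib.MP_5d4057_al
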