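import Mathlib

namespace Pool.Agent.Lib.MP_5d4057_al

open Matrix Function

def tr (n : ℤ) : SpecialLinearGroup (Fin 2) ℤ := ⟨!![1, n; 0, 1], by simp [det_fin_two_of]⟩

def el (n : ℤ) : SpecialLinearGroup (Fin 2) ℤ :=
  ⟨!![1 + 4 * n, -8 * n ^ 2; 2, 1 - 4 * n], by rw [det_fin_two_of]; ring⟩

def gens (m : ℕ) : Fin (m + 1) → SpecialLinearGroup (Fin 2) ℤ :=
  Fin.cons (tr (2 * m)) (fun i : Fin m => el (i : ℕ))

def Xs (m : ℕ) : Fin (m + 1) → Set (SpecialLinearGroup (Fin 2) ℤ) :=
  Fin.cons {g | g.1 1 0 = 0 ∨ 0 < (g.1 0 0 - (2 * m - 1) * g.1 1 0) * g.1 1 0}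
    (fun i : Fin m => {g | g.1 1 0 ≠ 0 ∧ 0 ≤ (g.1 0 0 - 2 * (i : ℕ) * g.1 1 0) * g.1 1 0 ∧
      (g.1 0 0 - (2 * (i : ℕ) + 1) * g.1 1 0) * g.1 1 0 ≤ 0})

def Ys (m : ℕ) : Fin (m + 1) → Set (SpecialLinearGroup (Fin 2) ℤ) :=
  Fin.cons {g | g.1 1 0 ≠ 0 ∧ (g.1 0 0 + g.1 1 0) * g.1 1 0 ≤ 0}
    (fun i : Fin m => {g | 0 < (g.1 0 0 - (2 * (i : ℕ) - 1) * g.1 1 0) * g.1 1 0 ∧
      (g.1 0 0 - 2 * (i : ℕ) * g.1 1 0) * g.1 1 0 < 0})

theorem col_ne (g : SpecialLinearGroup (Fin 2) ℤ) (h : g.1 1 0 = 0) : g.1 0 0 ≠ 0 := by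
  intro h0
  have := g.2
  rw [det_fin_two, h, h0] at this
  simp at this

theorem mul_00 (g h : SpecialLinearGroup (Fin 2) ℤ) :
    (g * h).1 0 0 = g.1 0 0 * h.1 0 0 + g.1 0 1 * h.1 1 0 := by
  show (g.1 * h.1) 0 0 = _
  rw [Matrix.mul_apply, Fin.sum_univ_two]

theorem mul_10 (g h : SpecialLinearGroup (Fin 2) ℤ) :
    (g * h).1 1 0 = g.1 1 0 * h.1 0 0 + g.1 1 1 * h.1 1 0 := by
  show (g.1 * h.1) 1 0 = _
  rw [Matrix.mul_apply, Fin.sum_univ_two]

theorem mul_01 (g h : SpecialLinearGroup (Fin 2) ℤ) :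
    (g * h).1 0 1 = g.1 0 0 * h.1 0 1 + g.1 0 1 * h.1 1 1 := by
  show (g.1 * h.1) 0 1 = _
  rw [Matrix.mul_apply, Fin.sum_univ_two]

theorem maps (m : ℕ) (i : Fin (m + 1)) (g : SpecialLinearGroup (Fin 2) ℤ) (hg : g ∉ Ys m i) :
    gens m i * g ∈ Xs m i := by
  induction i using Fin.cases with
  | zero =>
    simp only [Ys, Fin.cons_zero, Set.mem_ofPred_eq, not_and, not_le] at hg
    simp only [Xs, gens, Fin.cons_zero, Set.mem_ofPred_eq, mul_00, mul_10]
    by_cases h : g.1 1 0 = 0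
    · left
      simp [tr, h]
    · right
      have := hg h
      simp [tr]
      nlinarith
  | succ i =>
    have hc := col_ne g
    simp only [Ys, Fin.cons_succ, Set.mem_ofPred_eq, not_and, not_lt] at hg
    simp only [Xs, gens, Fin.cons_succ, Set.mem_ofPred_eq, mul_00, mul_10]
    set x := g.1 0 0
    set y := g.1 1 0
    simp [el]
    generalize ((i : ℕ) : ℤ) = n at *
    obtain ⟨z, hz⟩ : ∃ z, x = z + 2 * n * y := ⟨x - 2 * n * y, by ring⟩
    rw [hz] at hg hc ⊢
    have hc' : y = 0 → z ≠ 0 := fun h h' => hc h (by rw [h, h']; ring)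
    have hg' : 0 < (z + y) * y → 0 ≤ z * y := fun h => by
      have := hg (by nlinarith)
      nlinarith
    have hy : y + 2 * z ≠ 0 := by
      intro h
      have hy2 : y = -2 * z := by linarith
      rw [hy2] at hg' hc'
      by_cases hz0 : z = 0
      · exact hc' (by rw [hz0]; ring) hz0
      · have : 0 < z ^ 2 := by positivity
        have := hg' (by nlinarith)
        nlinarith
    refine ⟨?_, ?_, ?_⟩
    · intro h
      apply hy
      linarith
    · by_cases h : 0 < (z + y) * y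
      · have := hg' h
        nlinarith [sq_nonneg z]
      · nlinarith [sq_nonneg z, sq_nonneg (z + y)]
    · by_cases h : 0 < (z + y) * y
      · have := hg' h
        nlinarith [sq_nonneg z, sq_nonneg y]
      · nlinarith [sq_nonneg z, sq_nonneg (z + y), sq_nonneg y]

theorem disjXX (m : ℕ) : Pairwise (Disjoint on Xs m) := by
  have key : ∀ i j : Fin (m + 1), i < j → Disjoint (Xs m i) (Xs m j) := by
    intro i j hij
    rw [Set.disjoint_left]
    intro g h1 h2
    induction j using Fin.cases with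
    | zero => exact absurd hij (by simp)
    | succ j =>
      have hj : ((j : ℕ) : ℤ) + 1 ≤ m := by exact_mod_cast j.2
      simp only [Xs, Fin.cons_succ, Set.mem_ofPred_eq] at h2
      have hy : 0 < (g.1 1 0) ^ 2 := by have := h2.1; positivity
      induction i using Fin.cases with
      | zero =>
        simp only [Xs, Fin.cons_zero, Set.mem_ofPred_eq] at h1
        rcases h1 with h1 | h1
        · exact h2.1 h1
        · nlinarith [h2.2.2]
      | succ i =>
        have hij' : ((i : ℕ) : ℤ) + 1 ≤ (j : ℕ) := by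
          have : i < j := by simpa using hij
          exact_mod_cast this
        simp only [Xs, Fin.cons_succ, Set.mem_ofPred_eq] at h1
        nlinarith [h2.2.1, h1.2.2]
  intro i j hij
  rcases lt_or_gt_of_ne hij with h | h
  · exact key i j h
  · exact (key j i h).symm

theorem disjYY (m : ℕ) : Pairwise (Disjoint on Ys m) := by
  have key : ∀ i j : Fin (m + 1), i < j → Disjoint (Ys m i) (Ys m j) := by
    intro i j hij
    rw [Set.disjoint_left]
    intro g h1 h2
    induction j using Fin.cases with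
    | zero => exact absurd hij (by simp)
    | succ j =>
      simp only [Ys, Fin.cons_succ, Set.mem_ofPred_eq] at h2
      have hy : 0 ≤ (g.1 1 0) ^ 2 := by positivity
      have hj : (0 : ℤ) ≤ ((j : ℕ) : ℤ) := by positivity
      induction i using Fin.cases with
      | zero =>
        simp only [Ys, Fin.cons_zero, Set.mem_ofPred_eq] at h1
        nlinarith [h2.1, h1.2]
      | succ i =>
        have hij' : ((i : ℕ) : ℤ) + 1 ≤ (j : ℕ) := by
          have : i < j := by simpa using hij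
          exact_mod_cast this
        simp only [Ys, Fin.cons_succ, Set.mem_ofPred_eq] at h1
        nlinarith [h2.1, h1.2]
  intro i j hij
  rcases lt_or_gt_of_ne hij with h | h
  · exact key i j h
  · exact (key j i h).symm

theorem disjXY (m : ℕ) (i j : Fin (m + 1)) : Disjoint (Xs m i) (Ys m j) := by
  rw [Set.disjoint_left]
  intro g h1 h2
  have hy : 0 ≤ (g.1 1 0) ^ 2 := by positivity
  induction i using Fin.cases with
  | zero =>
    induction j using Fin.cases with
    | zero =>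
      simp only [Xs, Ys, Fin.cons_zero, Set.mem_ofPred_eq] at h1 h2
      rcases h1 with h1 | h1
      · exact h2.1 h1
      · have hm : (0 : ℤ) ≤ (m : ℤ) := by positivity
        nlinarith [h2.2]
    | succ j =>
      simp only [Xs, Ys, Fin.cons_zero, Fin.cons_succ, Set.mem_ofPred_eq] at h1 h2
      have hj : ((j : ℕ) : ℤ) + 1 ≤ m := by exact_mod_cast j.2
      rcases h1 with h1 | h1
      · rw [h1] at h2; simp at h2
      · nlinarith [h2.2]
  | succ i =>
    have hi : (0 : ℤ) ≤ ((i : ℕ) : ℤ) := by positivity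
    induction j using Fin.cases with
    | zero =>
      simp only [Xs, Ys, Fin.cons_zero, Fin.cons_succ, Set.mem_ofPred_eq] at h1 h2
      have hy' : 0 < (g.1 1 0) ^ 2 := by have := h1.1; positivity
      nlinarith [h2.2, h1.2.1]
    | succ j =>
      simp only [Xs, Ys, Fin.cons_succ, Set.mem_ofPred_eq] at h1 h2
      have hy' : 0 < (g.1 1 0) ^ 2 := by have := h1.1; positivity
      rcases le_or_gt j i with h | h
      · have hij' : ((j : ℕ) : ℤ) ≤ (i : ℕ) := by exact_mod_cast h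
        nlinarith [h2.2, h1.2.1]
      · have hij' : ((i : ℕ) : ℤ) + 1 ≤ (j : ℕ) := by exact_mod_cast h
        nlinarith [h2.1, h1.2.2]

theorem Xs_nonempty (m : ℕ) (i : Fin (m + 1)) : (Xs m i).Nonempty := by
  induction i using Fin.cases with
  | zero => exact ⟨1, by simp [Xs]⟩
  | succ i =>
    refine ⟨⟨!![2 * (i : ℕ), -1; 1, 0], by simp [det_fin_two_of]⟩, ?_⟩
    show (1 : ℤ) ≠ 0 ∧ 0 ≤ ((2 * ((i : ℕ) : ℤ) : ℤ) - 2 * ((i : ℕ) : ℤ) * 1) * 1 ∧
      ((2 * ((i : ℕ) : ℤ) : ℤ) - (2 * ((i : ℕ) : ℤ) + 1) * 1) * 1 ≤ 0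
    refine ⟨one_ne_zero, ?_, ?_⟩ <;> linarith

theorem gens_free (m : ℕ) (hm : 1 ≤ m) : Injective (FreeGroup.lift (gens m)) := by
  have : Nontrivial (Fin (m + 1)) := Fin.nontrivial_iff_two_le.2 (by omega)
  have hX : ∀ i (x : SpecialLinearGroup (Fin 2) ℤ), x ∉ Ys m i → gens m i • x ∈ Xs m i :=
    fun i x hx => maps m i x hx
  apply FreeGroup.injective_lift_of_ping_pong (gens m) (Xs m) (Ys m) (Xs_nonempty m) (disjXX m)
    (disjYY m) (disjXY m)
  · intro i
    rintro _ ⟨x, hx, rfl⟩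
    exact hX i x hx
  · intro i
    rintro _ ⟨x, hx, rfl⟩
    show (gens m i)⁻¹ • x ∈ Ys m i
    by_contra hc
    have := hX i _ hc
    rw [smul_inv_smul] at this
    exact hx this

theorem tr_mul (a b : ℤ) : tr a * tr b = tr (a + b) := by
  ext i j
  show ((tr a).1 * (tr b).1) i j = (tr (a + b)).1 i j
  fin_cases i <;> fin_cases j <;> simp [tr, Matrix.mul_apply, Fin.sum_univ_two, add_comm]

theorem tr_zero : tr 0 = 1 := by
  ext i j
  fin_cases i <;> fin_cases j <;> simp [tr]

theorem tr_inv (a : ℤ) : (tr a)⁻¹ = tr (-a) := by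
  rw [inv_eq_iff_mul_eq_one, tr_mul, add_neg_cancel, tr_zero]

theorem tr_zpow (a n : ℤ) : (tr a) ^ n = tr (n * a) := by
  induction n with
  | zero => simp [tr_zero]
  | succ n ih => rw [_root_.zpow_add_one, ih, tr_mul]; congr 1; ring
  | pred n ih => rw [_root_.zpow_sub_one, ih, tr_inv, tr_mul]; congr 1; ring

theorem tr_el (n : ℤ) : tr (2 * n) * el 0 = el n * tr (2 * n) := by
  ext i j
  show ((tr (2 * n)).1 * (el 0).1) i j = ((el n).1 * (tr (2 * n)).1) i j
  fin_cases i <;> fin_cases j <;> simp [tr, el, Matrix.mul_apply, Fin.sum_univ_two] <;> ring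

def Pgrp : Subgroup (SpecialLinearGroup (Fin 2) ℤ) := Subgroup.closure {tr 2, el 0}

theorem tr_mem (n : ℤ) : tr (2 * n) ∈ Pgrp := by
  have : tr 2 ∈ Pgrp := Subgroup.subset_closure (by simp)
  have := Pgrp.zpow_mem this n
  rwa [tr_zpow, mul_comm] at this

theorem el_mem : el 0 ∈ Pgrp := Subgroup.subset_closure (by simp)

theorem el_inv_val : (el 0)⁻¹.1 = !![1, 0; -2, 1] := by
  show adjugate (el 0).1 = _
  rw [adjugate_fin_two]
  simp [el]

theorem descent : ∀ (n : ℕ) (g : SpecialLinearGroup (Fin 2) ℤ),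
    |g.1 0 0| + |g.1 1 0| ≤ n → g.1 0 0 % 4 = 1 → g.1 1 0 % 2 = 0 → g.1 0 1 % 2 = 0 → g ∈ Pgrp := by
  intro n
  induction n with
  | zero =>
    intro g h h1 _ _
    have : |g.1 0 0| ≤ 0 := by have := abs_nonneg (g.1 1 0); push_cast at h; linarith
    have : g.1 0 0 = 0 := abs_nonpos_iff.1 this
    omega
  | succ n ih =>
    intro g h h1 h2 h3
    have hdet : g.1 0 0 * g.1 1 1 - g.1 0 1 * g.1 1 0 = 1 := by
      have := g.2
      rwa [det_fin_two] at this
    by_cases hc : g.1 1 0 = 0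
    · rw [hc] at hdet
      have ha : g.1 0 0 = 1 := by
        have : g.1 0 0 ∣ 1 := ⟨g.1 1 1, by linarith⟩
        have := Int.isUnit_iff.1 (isUnit_of_dvd_one this)
        omega
      have hd : g.1 1 1 = 1 := by rw [ha] at hdet; linarith
      obtain ⟨b, hb⟩ : ∃ b, g.1 0 1 = 2 * b := ⟨g.1 0 1 / 2, by omega⟩
      have : g = tr (2 * b) := by
        ext i j
        fin_cases i <;> fin_cases j
        · exact ha
        · exact hb
        · exact hc
        · exact hd
      rw [this]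
      exact tr_mem b
    · push_cast at h
      rcases lt_or_ge (|g.1 1 0|) (|g.1 0 0|) with hlt | hge
      · -- reduce the upper entry
        obtain ⟨s, hs, hs2⟩ : ∃ s : ℤ, (s = 1 ∨ s = -1) ∧ |g.1 0 0 + 2 * s * g.1 1 0| < |g.1 0 0| := by
          rcases le_total 0 (g.1 0 0) with ha | ha <;> rcases le_total 0 (g.1 1 0) with hb | hb
          · refine ⟨-1, by simp, ?_⟩
            rw [abs_of_nonneg ha, abs_of_nonneg hb] at hlt
            rw [abs_of_nonneg ha, abs_lt]; constructor <;> omega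
          · refine ⟨1, by simp, ?_⟩
            rw [abs_of_nonneg ha, abs_of_nonpos hb] at hlt
            rw [abs_of_nonneg ha, abs_lt]; constructor <;> omega
          · refine ⟨1, by simp, ?_⟩
            rw [abs_of_nonpos ha, abs_of_nonneg hb] at hlt
            rw [abs_of_nonpos ha, abs_lt]; constructor <;> omega
          · refine ⟨-1, by simp, ?_⟩
            rw [abs_of_nonpos ha, abs_of_nonpos hb] at hlt
            rw [abs_of_nonpos ha, abs_lt]; constructor <;> omega
        have key : tr (2 * s) * g ∈ Pgrp := by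
          have e00 : (tr (2 * s) * g).1 0 0 = g.1 0 0 + 2 * s * g.1 1 0 := by
            rw [mul_00]; simp [tr]
          have e10 : (tr (2 * s) * g).1 1 0 = g.1 1 0 := by
            rw [mul_10]; simp [tr]
          have e01 : (tr (2 * s) * g).1 0 1 = g.1 0 1 + 2 * s * g.1 1 1 := by
            rw [mul_01]; simp [tr]
          apply ih
          · rw [e00, e10]; linarith
          · rw [e00]; rcases hs with rfl | rfl <;> omega
          · rw [e10]; exact h2
          · rw [e01]; rcases hs with rfl | rfl <;> omega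
        have := Pgrp.mul_mem (Pgrp.inv_mem (tr_mem s)) key
        rwa [inv_mul_cancel_left] at this
      · have hne : |g.1 0 0| ≠ |g.1 1 0| := by
          intro h
          rcases abs_eq_abs.1 h with h | h <;> omega
        have hlt : |g.1 0 0| < |g.1 1 0| := lt_of_le_of_ne hge hne
        have ha0 : g.1 0 0 ≠ 0 := by omega
        obtain ⟨w, hw, hw00, hw10, hw01⟩ : ∃ w ∈ Pgrp, (w * g).1 0 0 = g.1 0 0 ∧
            |(w * g).1 1 0| < |g.1 1 0| ∧ (w * g).1 0 1 = g.1 0 1 ∧
            (w * g).1 1 0 % 2 = 0 := by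
          have pl : ∀ s : ℤ, (s = 1 ∨ s = -1) → ∃ w ∈ Pgrp, (w * g).1 0 0 = g.1 0 0 ∧
              (w * g).1 1 0 = g.1 1 0 + 2 * s * g.1 0 0 ∧ (w * g).1 0 1 = g.1 0 1 := by
            intro s hs
            rcases hs with rfl | rfl
            · refine ⟨el 0, el_mem, ?_, ?_, ?_⟩
              · rw [mul_00]; simp [el]
              · rw [mul_10]; simp [el]; ring
              · rw [mul_01]; simp [el]
            · refine ⟨(el 0)⁻¹, Pgrp.inv_mem el_mem, ?_, ?_, ?_⟩
              · rw [mul_00, el_inv_val]; simp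
              · rw [mul_10, el_inv_val]; simp; ring
              · rw [mul_01, el_inv_val]; simp
          rcases le_total 0 (g.1 0 0) with ha | ha <;> rcases le_total 0 (g.1 1 0) with hb | hb
          · obtain ⟨w, hw, q1, q2, q3⟩ := pl (-1) (by simp)
            refine ⟨w, hw, q1, ?_, q3, ?_⟩
            · rw [abs_of_nonneg ha, abs_of_nonneg hb] at hlt
              rw [q2, abs_of_nonneg hb, abs_lt]; constructor <;> omega
            · rw [q2]; omega
          · obtain ⟨w, hw, q1, q2, q3⟩ := pl 1 (by simp)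
            refine ⟨w, hw, q1, ?_, q3, ?_⟩
            · rw [abs_of_nonneg ha, abs_of_nonpos hb] at hlt
              rw [q2, abs_of_nonpos hb, abs_lt]; constructor <;> omega
            · rw [q2]; omega
          · obtain ⟨w, hw, q1, q2, q3⟩ := pl 1 (by simp)
            refine ⟨w, hw, q1, ?_, q3, ?_⟩
            · rw [abs_of_nonpos ha, abs_of_nonneg hb] at hlt
              rw [q2, abs_of_nonneg hb, abs_lt]; constructor <;> omega
            · rw [q2]; omega
          · obtain ⟨w, hw, q1, q2, q3⟩ := pl (-1) (by simp)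
            refine ⟨w, hw, q1, ?_, q3, ?_⟩
            · rw [abs_of_nonpos ha, abs_of_nonpos hb] at hlt
              rw [q2, abs_of_nonpos hb, abs_lt]; constructor <;> omega
            · rw [q2]; omega
        have key : w * g ∈ Pgrp := by
          apply ih
          · rw [hw00]; linarith
          · rw [hw00]; exact h1
          · exact hw01.2
          · rw [hw01.1]; exact h3
        have := Pgrp.mul_mem (Pgrp.inv_mem hw) key
        rwa [inv_mul_cancel_left] at this

theorem Gamma_four_le : CongruenceSubgroup.Gamma 4 ≤ Pgrp := by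
  intro g hg
  rw [CongruenceSubgroup.Gamma_mem] at hg
  obtain ⟨h00, h01, h10, _⟩ := hg
  have e00 : ((g.1 0 0 - 1 : ℤ) : ZMod 4) = 0 := by push_cast; rw [h00]; ring
  have e01 : ((g.1 0 1 : ℤ) : ZMod 4) = 0 := h01
  have e10 : ((g.1 1 0 : ℤ) : ZMod 4) = 0 := h10
  rw [ZMod.intCast_zmod_eq_zero_iff_dvd] at e00 e01 e10
  push_cast at e00 e01 e10
  apply descent (|g.1 0 0| + |g.1 1 0|).toNat g
  · exact Int.self_le_toNat _
  · omega
  · omega
  · omega

instance Pgrp_finiteIndex : Pgrp.FiniteIndex := Subgroup.finiteIndex_of_le Gamma_four_le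

def Lam (m : ℕ) : Subgroup (SpecialLinearGroup (Fin 2) ℤ) := (FreeGroup.lift (gens m)).range

theorem gens_mem (m : ℕ) (i : Fin (m + 1)) : gens m i ∈ Lam m :=
  ⟨FreeGroup.of i, by simp⟩

theorem tr_mem_Lam (m : ℕ) : tr (2 * m) ∈ Lam m := gens_mem m 0

theorem el_mem_Lam (m : ℕ) (i : ℕ) (hi : i < m) : el i ∈ Lam m := by
  exact gens_mem m (Fin.succ ⟨i, hi⟩)

theorem cover (m : ℕ) (hm : 1 ≤ m) (p : SpecialLinearGroup (Fin 2) ℤ) (hp : p ∈ Pgrp) :
    ∃ i : ℕ, i < m ∧ p * (tr (2 * i))⁻¹ ∈ Lam m := by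
  have hstep : ∀ q : SpecialLinearGroup (Fin 2) ℤ, (∃ i : ℕ, i < m ∧ q * (tr (2 * i))⁻¹ ∈ Lam m) →
      ∀ s ∈ ({tr 2, el 0} : Set (SpecialLinearGroup (Fin 2) ℤ)),
      (∃ i : ℕ, i < m ∧ (q * s) * (tr (2 * i))⁻¹ ∈ Lam m) ∧
      (∃ i : ℕ, i < m ∧ (q * s⁻¹) * (tr (2 * i))⁻¹ ∈ Lam m) := by
    rintro q ⟨i, hi, hq⟩ s hs
    rcases hs with rfl | rfl
    · constructor
      · by_cases h : i + 1 < m
        · refine ⟨i + 1, h, ?_⟩
          have : q * tr 2 * (tr (2 * ((i + 1 : ℕ) : ℤ)))⁻¹ = q * (tr (2 * i))⁻¹ := by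
            have : tr (2 * ((i + 1 : ℕ) : ℤ)) = tr (2 * i) * tr 2 := by
              rw [tr_mul]; congr 1
            rw [this]; group
          rw [this]; exact hq
        · have him : i + 1 = m := by omega
          refine ⟨0, by omega, ?_⟩
          have : q * tr 2 * (tr (2 * ((0 : ℕ) : ℤ)))⁻¹ = q * (tr (2 * i))⁻¹ * tr (2 * m) := by
            have : tr (2 * (m : ℤ)) = tr (2 * i) * tr 2 := by
              rw [tr_mul]; congr 1; rw [← him]; push_cast; ring
            rw [this]; simp [tr_zero]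
          rw [this]; exact (Lam m).mul_mem hq (tr_mem_Lam m)
      · by_cases h : i = 0
        · refine ⟨m - 1, by omega, ?_⟩
          have : q * (tr 2)⁻¹ * (tr (2 * ((m - 1 : ℕ) : ℤ)))⁻¹ = q * (tr (2 * i))⁻¹ * (tr (2 * m))⁻¹ := by
            have : tr (2 * (m : ℤ)) = tr (2 * ((m - 1 : ℕ) : ℤ)) * tr 2 := by
              rw [tr_mul]; congr 1; push_cast [Nat.cast_sub hm]; ring
            rw [this, h]; simp [tr_zero]; group
          rw [this]; exact (Lam m).mul_mem hq ((Lam m).inv_mem (tr_mem_Lam m))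
        · refine ⟨i - 1, by omega, ?_⟩
          have : q * (tr 2)⁻¹ * (tr (2 * ((i - 1 : ℕ) : ℤ)))⁻¹ = q * (tr (2 * i))⁻¹ := by
            have : tr (2 * (i : ℤ)) = tr (2 * ((i - 1 : ℕ) : ℤ)) * tr 2 := by
              rw [tr_mul]; congr 1; push_cast [Nat.cast_sub (Nat.one_le_iff_ne_zero.2 h)]; ring
            rw [this]; group
          rw [this]; exact hq
    · have e : tr (2 * (i : ℤ)) * el 0 * (tr (2 * (i : ℤ)))⁻¹ = el i := by
        rw [tr_el]; group
      constructor
      · refine ⟨i, hi, ?_⟩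
        have : q * el 0 * (tr (2 * (i : ℤ)))⁻¹ = q * (tr (2 * (i : ℤ)))⁻¹ * el i := by
          rw [← e]; group
        rw [this]; exact (Lam m).mul_mem hq (el_mem_Lam m i hi)
      · refine ⟨i, hi, ?_⟩
        have : q * (el 0)⁻¹ * (tr (2 * (i : ℤ)))⁻¹ = q * (tr (2 * (i : ℤ)))⁻¹ * (el i)⁻¹ := by
          rw [← e]; group
        rw [this]; exact (Lam m).mul_mem hq ((Lam m).inv_mem (el_mem_Lam m i hi))
  induction hp using Subgroup.closure_induction_right with
  | one => exact ⟨0, by omega, by simp [tr_zero]⟩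
  | mul_right x _ y hy ih => exact (hstep x ih y hy).1
  | mul_inv_cancel x _ y hy ih => exact (hstep x ih y hy).2

theorem Lam_le (m : ℕ) : Lam m ≤ Pgrp := by
  rintro _ ⟨w, rfl⟩
  have : FreeGroup.lift (gens m) w ∈ Subgroup.closure (Set.range (gens m)) := by
    rw [← FreeGroup.range_lift_eq_closure]; exact ⟨w, rfl⟩
  refine (Subgroup.closure_le _).2 ?_ this
  rintro _ ⟨i, rfl⟩
  induction i using Fin.cases with
  | zero => exact tr_mem m
  | succ i =>
    show el (i : ℕ) ∈ Pgrp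
    have e : tr (2 * ((i : ℕ) : ℤ)) * el 0 * (tr (2 * ((i : ℕ) : ℤ)))⁻¹ = el (i : ℕ) := by
      rw [tr_el]; group
    rw [← e]
    exact Pgrp.mul_mem (Pgrp.mul_mem (tr_mem _) el_mem) (Pgrp.inv_mem (tr_mem _))

theorem Lam_finiteIndex (m : ℕ) (hm : 1 ≤ m) : (Lam m).FiniteIndex := by
  have h1 : Finite (Pgrp ⧸ (Lam m).subgroupOf Pgrp) := by
    let f : Fin m → Pgrp ⧸ (Lam m).subgroupOf Pgrp :=
      fun i => ((⟨(tr (2 * (i : ℕ)))⁻¹, Pgrp.inv_mem (tr_mem _)⟩ : Pgrp) : Pgrp ⧸ (Lam m).subgroupOf Pgrp)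
    apply Finite.of_surjective f
    intro x
    induction x using QuotientGroup.induction_on with
    | H x =>
      obtain ⟨i, hi, hx⟩ := cover m hm x⁻¹.1 x⁻¹.2
      refine ⟨⟨i, hi⟩, ?_⟩
      rw [QuotientGroup.eq]
      rw [Subgroup.mem_subgroupOf]
      have := (Lam m).inv_mem hx
      simpa using this
  have h2 : ((Lam m).subgroupOf Pgrp).FiniteIndex := Subgroup.finiteIndex_of_finite_quotient
  refine ⟨?_⟩
  rw [← Subgroup.relIndex_mul_index (Lam_le m)]
  exact mul_ne_zero h2.index_ne_zero Pgrp_finiteIndex.index_ne_zero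

end Pool.Agent.Lib.MP_5d4057_al
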