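import Pool.Agent.Lib.MP_5d4057_al.Hyp
import Pool.Agent.Lib.MP_5d4057_al.PingPong
import Pool.Agent.Lib.MP_5d4057_al.Sanov

namespace Pool.Agent.Lib.MP_5d4057_al

open Matrix MeasureTheory

theorem recurrence {G : Type} [Group G] [TopologicalSpace G] [IsTopologicalGroup G]
    [SecondCountableTopology G] (Γ : Subgroup G) (hΓ : IsLattice Γ) (h : G) (N : Set G)
    (hN : IsOpen N) (h1 : (1 : G) ∈ N) :
    ∃ n : ℕ, 1 ≤ n ∧ ∃ u1 ∈ N, ∃ u2 ∈ N, u2⁻¹ * h ^ n * u1 ∈ Γ := by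
  obtain ⟨-, μ, hμ0, hμf, hinv⟩ := hΓ
  let _ : MeasurableSpace (G ⧸ Γ) := borel _
  have : BorelSpace (G ⧸ Γ) := ⟨rfl⟩
  let V : Set (G ⧸ Γ) := (QuotientGroup.mk : G → G ⧸ Γ) '' N
  have hVo : IsOpen V := QuotientGroup.isOpenMap_coe N hN
  have hVm : MeasurableSet V := hVo.measurableSet
  have hcont : ∀ g : G, Continuous (fun x : G ⧸ Γ => g • x) := fun g => continuous_const_smul g
  have hV0 : μ V ≠ 0 := by
    intro h0
    obtain ⟨s, hs, hd⟩ := TopologicalSpace.exists_countable_dense G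
    apply hμ0
    rw [← Measure.measure_univ_eq_zero]
    have hcov : (Set.univ : Set (G ⧸ Γ)) ⊆ ⋃ g ∈ s, (fun x : G ⧸ Γ => g⁻¹ • x) ⁻¹' V := by
      intro x _
      induction x using QuotientGroup.induction_on with
      | H g0 =>
        have ho : IsOpen ((fun g : G => g⁻¹ * g0) ⁻¹' N) := hN.preimage (by fun_prop)
        obtain ⟨g, hg1, hg2⟩ := hd.exists_mem_open ho ⟨g0, by simpa using h1⟩
        rw [Set.mem_iUnion₂]
        exact ⟨g, hg1, g⁻¹ * g0, hg2, rfl⟩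
    refine measure_mono_null hcov ?_
    rw [measure_biUnion_null_iff hs]
    intro g _
    rw [hinv _ _ hVm, h0]
  obtain ⟨i, j, hij, x, hx1, hx2⟩ := exists_nonempty_inter_of_measure_univ_lt_tsum_measure μ
    (s := fun i : ℕ => (fun x : G ⧸ Γ => h ^ i • x) ⁻¹' V)
    (fun i => (hVm.preimage (hcont _).measurable).nullMeasurableSet)
    (by
      have : ∀ i : ℕ, μ ((fun x : G ⧸ Γ => h ^ i • x) ⁻¹' V) = μ V := fun i => hinv _ _ hVm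
      simp only [this]
      rw [ENNReal.tsum_const_eq_top_of_ne_zero hV0]
      exact lt_top_iff_ne_top.2 hμf)
  have main : ∀ i j : ℕ, i < j → h ^ i • x ∈ V → h ^ j • x ∈ V →
      ∃ n : ℕ, 1 ≤ n ∧ ∃ u1 ∈ N, ∃ u2 ∈ N, u2⁻¹ * h ^ n * u1 ∈ Γ := by
    rintro i j hij ⟨u1, hu1, e1⟩ ⟨u2, hu2, e2⟩
    refine ⟨j - i, by omega, u1, hu1, u2, hu2, ?_⟩
    have : h ^ j • x = h ^ (j - i) • h ^ i • x := by
      rw [smul_smul, ← pow_add]; congr 2; omega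
    rw [this, ← e1] at e2
    have e3 : ((u2 : G) : G ⧸ Γ) = ((h ^ (j - i) * u1 : G) : G ⧸ Γ) := e2
    rw [QuotientGroup.eq] at e3
    rwa [mul_assoc]
  rcases lt_or_gt_of_ne hij with hlt | hlt
  · exact main i j hlt hx1 hx2
  · exact main j i hlt hx2 hx1

instance : SecondCountableTopology (Matrix (Fin (2 + 1)) (Fin (2 + 1)) ℂ) :=
  inferInstanceAs (SecondCountableTopology (Fin (2 + 1) → Fin (2 + 1) → ℂ))

instance : SecondCountableTopology (SpecialLinearGroup (Fin (2 + 1)) ℂ) :=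
  SpecialLinearGroup.isClosedEmbedding_val.isInducing.secondCountableTopology

instance : SecondCountableTopology (SU 2) :=
  TopologicalSpace.secondCountableTopology_induced (SU 2)
    (SpecialLinearGroup (Fin (2 + 1)) ℂ) (fun g => g.1)

theorem pre_open (U : Set X) (hU : IsOpen U) :
    IsOpen ((fun p : SU 2 × X => p.1 • p.2) ⁻¹' U) := hU.preimage continuous_act

theorem pre_mem (a : X) (U : Set X) (ha : a ∈ U) :
    ((1 : SU 2), a) ∈ ((fun p : SU 2 × X => p.1 • p.2) ⁻¹' U) := by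
  show (1 : SU 2) • a ∈ U
  rwa [one_smul]

theorem box (a : X) (W : Set (SU 2 × X)) (h0 : IsOpen W) (h2 : ((1 : SU 2), a) ∈ W) :
    ∃ N : Set (SU 2), IsOpen N ∧ (1 : SU 2) ∈ N ∧ ∃ U' : Set X, IsOpen U' ∧ a ∈ U' ∧
      ∀ g ∈ N, ∀ x ∈ U', (g, x) ∈ W := by
  obtain ⟨N1, U', hN1, hU', h1N1, haU', hs1⟩ := isOpen_prod_iff.1 h0 1 a h2
  exact ⟨N1, hN1, h1N1, U', hU', haU', fun g hg x hx => hs1 (Set.mk_mem_prod hg hx)⟩

theorem local_one (a : X) (U : Set X) (hU : IsOpen U) (ha : a ∈ U) :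
    ∃ N : Set (SU 2), IsOpen N ∧ (1 : SU 2) ∈ N ∧ ∃ U' : Set X, IsOpen U' ∧ a ∈ U' ∧
      ∀ g ∈ N, ∀ x ∈ U', g • x ∈ U :=
  box a _ (pre_open U hU) (pre_mem a U ha)

theorem approx_aux (Γ : Subgroup (SU 2)) (hΓ : IsLattice Γ) (g : SU 2) (N1 N2 : Set (SU 2))
    (hN1 : IsOpen N1) (hN2 : IsOpen N2) (h1 : (1 : SU 2) ∈ N1) (h2 : (1 : SU 2) ∈ N2) :
    ∃ n : ℕ, 1 ≤ n ∧ ∃ u1 u2 : SU 2, u1⁻¹ ∈ N2 ∧ u2⁻¹ ∈ N1 ∧ u2⁻¹ * g ^ n * u1 ∈ Γ := by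
  obtain ⟨n, hn, u1, hu1, u2, hu2, hmem⟩ := recurrence Γ hΓ g (N1⁻¹ ∩ N2⁻¹)
    (hN1.inv.inter hN2.inv) ⟨by rwa [Set.mem_inv, inv_one], by rwa [Set.mem_inv, inv_one]⟩
  exact ⟨n, hn, u1, u2, hu1.2, hu2.1, hmem⟩

theorem approx (Γ : Subgroup (SU 2)) (hΓ : IsLattice Γ) (a b : X) (hab : a ≠ b) (U V : Set X)
    (hU : IsOpen U) (ha : a ∈ U) (hV : IsOpen V) (hb : b ∈ V) :
    ∃ γ : SU 2, γ ∈ Γ ∧ ∀ x, x ∉ V → γ • x ∈ U := by
  obtain ⟨N1, hN1, h1N1, U', hU', haU', hs1⟩ := local_one a U hU ha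
  obtain ⟨N2, hN2, h1N2, V', hV', hbV', hs2⟩ := local_one b V hV hb
  obtain ⟨g, hg⟩ := strong a b hab U' V' hU' haU' hV' hbV'
  obtain ⟨n, hn, u1, u2, hu1, hu2, hmem⟩ := approx_aux Γ hΓ g N1 N2 hN1 hN2 h1N1 h1N2
  refine ⟨_, hmem, fun x hx => ?_⟩
  have e1 : u1 • x ∉ V' := by
    intro hc
    apply hx
    have h3 := hs2 _ hu1 _ hc
    rwa [inv_smul_smul] at h3
  have e2 := hg n hn _ e1
  have e4 := hs1 _ hu2 _ e2
  rwa [mul_smul, mul_smul]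

end Pool.Agent.Lib.MP_5d4057_al
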