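import Pool.Agent.Lib.MP_5d4057_al.Defs

namespace Pool.Agent.Lib.MP_5d4057_al

open Matrix

def H (v w : Fin 3 → ℂ) : ℂ :=
  v 0 * (starRingEnd ℂ) (w 0) + v 1 * (starRingEnd ℂ) (w 1) - v 2 * (starRingEnd ℂ) (w 2)

def cov (q : Fin 3 → ℂ) : Fin 3 → ℂ :=
  ![(starRingEnd ℂ) (q 0), (starRingEnd ℂ) (q 1), -(starRingEnd ℂ) (q 2)]

theorem J_two : J 2 = !![1, 0, 0; 0, 1, 0; 0, 0, -1] := by
  ext i j
  fin_cases i <;> fin_cases j <;> simp [J]

theorem cov_eq (q : Fin 3 → ℂ) : cov q = star q ᵥ* J 2 := by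
  ext i
  rw [J_two]
  fin_cases i <;> simp [cov, vecMul, dotProduct, Fin.sum_univ_three]

theorem cov_dot (q v : Fin 3 → ℂ) : cov q ⬝ᵥ v = H v q := by
  simp [cov, H, dotProduct, Fin.sum_univ_three]
  ring

theorem H_eq (v w : Fin 3 → ℂ) : H v w = star w ⬝ᵥ (J 2 *ᵥ v) := by
  rw [← cov_dot, cov_eq, ← dotProduct_mulVec]

theorem H_smul_left (c : ℂ) (v w : Fin 3 → ℂ) : H (c • v) w = c * H v w := by
  simp [H]; ring

theorem H_add_left (v v' w : Fin 3 → ℂ) : H (v + v') w = H v w + H v' w := by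
  simp [H]; ring

theorem H_conj (v w : Fin 3 → ℂ) : (starRingEnd ℂ) (H v w) = H w v := by
  simp [H]; ring

theorem H_smul_right (c : ℂ) (v w : Fin 3 → ℂ) : H v (c • w) = (starRingEnd ℂ) c * H v w := by
  simp [H]; ring

theorem H_pres_aux (g : Matrix (Fin 3) (Fin 3) ℂ) (hg : gᴴ * J 2 * g = J 2) (v w : Fin 3 → ℂ) :
    H (g *ᵥ v) (g *ᵥ w) = H v w := by
  rw [H_eq, H_eq, star_mulVec, ← dotProduct_mulVec, mulVec_mulVec, mulVec_mulVec, hg]

theorem H_pres (g : SU 2) (v w : Fin 3 → ℂ) : H (g.1.1 *ᵥ v) (g.1.1 *ᵥ w) = H v w :=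
  H_pres_aux g.1.1 g.2 v w

theorem H_self (v : Fin 3 → ℂ) : H v v = ((Complex.normSq (v 0) + Complex.normSq (v 1) - Complex.normSq (v 2) : ℝ) : ℂ) := by
  simp [H, Complex.mul_conj]

theorem null_ne {v : Fin 3 → ℂ} (hv : H v v = 0) (h2 : v 2 = 0) : v = 0 := by
  rw [H_self, h2] at hv
  have h : Complex.normSq (v 0) + Complex.normSq (v 1) = 0 := by
    have := Complex.ofReal_eq_zero.1 hv
    simpa using this
  have h0 := Complex.normSq_nonneg (v 0)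
  have h1 := Complex.normSq_nonneg (v 1)
  have e0 : v 0 = 0 := Complex.normSq_eq_zero.1 (by linarith)
  have e1 : v 1 = 0 := Complex.normSq_eq_zero.1 (by linarith)
  ext i
  fin_cases i
  · exact e0
  · exact e1
  · exact h2

abbrev X : Type := {z : Fin 3 → ℂ // z 2 = 1 ∧ H z z = 0}

theorem den_ne (g : SU 2) (x : X) : (g.1.1 *ᵥ x.1) 2 ≠ 0 := by
  intro h
  have h1 : g.1.1 *ᵥ x.1 = 0 := null_ne (by rw [H_pres]; exact x.2.2) h
  have h2 : (g⁻¹).1.1 *ᵥ (g.1.1 *ᵥ x.1) = x.1 := by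
    rw [mulVec_mulVec]
    have : (g⁻¹).1.1 * g.1.1 = 1 := congrArg (fun k : SU 2 => k.1.1) (inv_mul_cancel g)
    rw [this, one_mulVec]
  rw [h1, mulVec_zero] at h2
  have := congrFun h2 2
  rw [x.2.1] at this
  simp at this

noncomputable instance : SMul (SU 2) X where
  smul g x := ⟨((g.1.1 *ᵥ x.1) 2)⁻¹ • (g.1.1 *ᵥ x.1), by
    refine ⟨?_, ?_⟩
    · simp only [Pi.smul_apply, smul_eq_mul]
      exact inv_mul_cancel₀ (den_ne g x)
    · rw [H_smul_left, H_smul_right, H_pres, x.2.2]; simp⟩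

theorem smul_val (g : SU 2) (x : X) : (g • x).1 = ((g.1.1 *ᵥ x.1) 2)⁻¹ • (g.1.1 *ᵥ x.1) := rfl

theorem mulVec_eq (g : SU 2) (x : X) : g.1.1 *ᵥ x.1 = ((g.1.1 *ᵥ x.1) 2) • (g • x).1 := by
  rw [smul_val, smul_smul, mul_inv_cancel₀ (den_ne g x), one_smul]

noncomputable instance : MulAction (SU 2) X where
  one_smul x := by
    apply Subtype.ext
    rw [smul_val]
    show (((1 : Matrix (Fin 3) (Fin 3) ℂ) *ᵥ x.1) 2)⁻¹ • ((1 : Matrix (Fin 3) (Fin 3) ℂ) *ᵥ x.1) = x.1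
    rw [one_mulVec, x.2.1]; simp
  mul_smul g h x := by
    apply Subtype.ext
    have e : (g * h).1.1 *ᵥ x.1 = ((h.1.1 *ᵥ x.1) 2) • (g.1.1 *ᵥ (h • x).1) := by
      show (g.1.1 * h.1.1) *ᵥ x.1 = _
      rw [← mulVec_mulVec, mulVec_eq h x, mulVec_smul]
      congr 1
      simp [(h • x).2.1]
    rw [smul_val, smul_val g (h • x), e]
    simp only [Pi.smul_apply, smul_eq_mul, mul_inv, smul_smul]
    congr 1
    have := den_ne h x
    field_simp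

theorem continuous_val : Continuous (fun g : SU 2 => (g.1.1 : Matrix (Fin 3) (Fin 3) ℂ)) :=
  SpecialLinearGroup.isClosedEmbedding_val.continuous.comp continuous_subtype_val

theorem continuous_act : Continuous (fun p : SU 2 × X => p.1 • p.2) := by
  apply Continuous.subtype_mk
  have h1 : Continuous (fun p : SU 2 × X => p.1.1.1 *ᵥ p.2.1) := by
    apply Continuous.matrix_mulVec
    · exact continuous_val.comp (continuous_fst : Continuous (Prod.fst : SU 2 × X → SU 2))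
    · exact continuous_subtype_val.comp continuous_snd
  exact Continuous.smul (((continuous_apply 2).comp h1).inv₀ (fun p => den_ne p.1 p.2)) h1

theorem X_infinite : Infinite X := by
  let f : ℕ → X := fun n => ⟨![((1 / (n + 1 : ℝ) : ℝ) : ℂ), ((Real.sqrt (1 - (1 / (n + 1 : ℝ)) ^ 2) : ℝ) : ℂ), 1], by
    refine ⟨rfl, ?_⟩
    have h0 : (0 : ℝ) < 1 / (n + 1 : ℝ) := by positivity
    have h1 : 1 / (n + 1 : ℝ) ≤ 1 := by
      rw [div_le_one (by positivity)]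
      have : (0 : ℝ) ≤ n := by positivity
      linarith
    have h2 : Real.sqrt (1 - (1 / (n + 1 : ℝ)) ^ 2) * Real.sqrt (1 - (1 / (n + 1 : ℝ)) ^ 2) =
        1 - (1 / (n + 1 : ℝ)) ^ 2 := Real.mul_self_sqrt (by nlinarith)
    rw [H_self]
    simp only [cons_val_zero, cons_val_one, cons_val_two, Complex.normSq_ofReal, head_cons, tail_cons,
      Complex.normSq_one]
    rw [h2]
    norm_num [sq]⟩
  apply Infinite.of_injective f
  intro m n h
  have h1 := congrArg (fun x : X => x.1 0) h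
  have h2 : ((1 / (m + 1 : ℝ) : ℝ) : ℂ) = ((1 / (n + 1 : ℝ) : ℝ) : ℂ) := h1
  have h3 : (1 / (m + 1 : ℝ) : ℝ) = (1 / (n + 1 : ℝ) : ℝ) := Complex.ofReal_injective h2
  have hm : (m + 1 : ℝ) ≠ 0 := by positivity
  have hn : (n + 1 : ℝ) ≠ 0 := by positivity
  rw [div_eq_div_iff hm hn] at h3
  have : (m : ℝ) = n := by linarith
  exact_mod_cast this

theorem X_sq (x : X) : ‖x.1 0‖ ^ 2 + ‖x.1 1‖ ^ 2 = 1 := by
  have h := x.2.2
  rw [H_self, x.2.1] at h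
  have := Complex.ofReal_eq_zero.1 h
  rw [Complex.normSq_eq_norm_sq, Complex.normSq_eq_norm_sq] at this
  simp at this
  linarith

theorem X_le (x : X) : ‖x.1 0‖ ≤ 1 ∧ ‖x.1 1‖ ≤ 1 := by
  have h := X_sq x
  constructor
  · nlinarith [norm_nonneg (x.1 0), sq_nonneg (‖x.1 1‖)]
  · nlinarith [norm_nonneg (x.1 1), sq_nonneg (‖x.1 0‖)]

theorem H_bound (x p : X) : ‖H x.1 p.1‖ ≤ 3 := by
  have h1 := X_le x
  have h2 := X_le p
  have e : ‖H x.1 p.1‖ ≤ ‖x.1 0‖ * ‖p.1 0‖ + ‖x.1 1‖ * ‖p.1 1‖ + 1 := by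
    unfold H
    rw [x.2.1, p.2.1]
    refine (norm_sub_le _ _).trans ?_
    refine add_le_add ((norm_add_le _ _).trans ?_) (by simp)
    rw [norm_mul, norm_mul, Complex.norm_conj, Complex.norm_conj]
  have := mul_le_mul h1.1 h2.1 (norm_nonneg _) zero_le_one
  have := mul_le_mul h1.2 h2.2 (norm_nonneg _) zero_le_one
  linarith

theorem dist_bound (x p : X) (i : Fin 3) : ‖x.1 i - p.1 i‖ ^ 2 ≤ 2 * ‖H x.1 p.1‖ := by
  have h1 := X_sq x
  have h2 := X_sq p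
  have hre : -(H x.1 p.1).re ≤ ‖H x.1 p.1‖ := (neg_le_abs _).trans (Complex.abs_re_le_norm _)
  have e : (H x.1 p.1).re = (x.1 0 * (starRingEnd ℂ) (p.1 0)).re +
      (x.1 1 * (starRingEnd ℂ) (p.1 1)).re - 1 := by
    unfold H
    rw [x.2.1, p.2.1]
    simp
  have k : ∀ z w : ℂ, ‖z - w‖ ^ 2 = ‖z‖ ^ 2 + ‖w‖ ^ 2 - 2 * (z * (starRingEnd ℂ) w).re := by
    intro z w
    rw [← Complex.normSq_eq_norm_sq, ← Complex.normSq_eq_norm_sq, ← Complex.normSq_eq_norm_sq,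
      Complex.normSq_sub]
  have h0 := k (x.1 0) (p.1 0)
  have h3 := k (x.1 1) (p.1 1)
  have s0 := sq_nonneg (‖x.1 0 - p.1 0‖)
  have s1 := sq_nonneg (‖x.1 1 - p.1 1‖)
  have tot : ‖x.1 0 - p.1 0‖ ^ 2 + ‖x.1 1 - p.1 1‖ ^ 2 ≤ 2 * ‖H x.1 p.1‖ := by
    rw [h0, h3]; linarith
  fin_cases i
  · show ‖x.1 0 - p.1 0‖ ^ 2 ≤ _
    linarith
  · show ‖x.1 1 - p.1 1‖ ^ 2 ≤ _
    linarith
  · show ‖x.1 2 - p.1 2‖ ^ 2 ≤ _
    rw [x.2.1, p.2.1]
    simp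

theorem H_ne {a b : X} (h : a ≠ b) : H a.1 b.1 ≠ 0 := by
  intro h0
  apply h
  apply Subtype.ext
  ext i
  have := dist_bound a b i
  rw [h0] at this
  simp only [norm_zero, mul_zero] at this
  have h2 : ‖a.1 i - b.1 i‖ = 0 := by nlinarith [norm_nonneg (a.1 i - b.1 i)]
  exact sub_eq_zero.1 (norm_eq_zero.1 h2)

theorem nhd (a : X) (U : Set X) (hU : IsOpen U) (ha : a ∈ U) :
    ∃ ε > 0, ∀ x : X, ‖H x.1 a.1‖ < ε → x ∈ U := by
  obtain ⟨δ, hδ, hb⟩ := Metric.isOpen_iff.1 hU a ha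
  refine ⟨δ ^ 2 / 2, by positivity, fun x hx => hb ?_⟩
  rw [Metric.mem_ball, Subtype.dist_eq, dist_pi_lt_iff hδ]
  intro i
  rw [dist_eq_norm]
  have := dist_bound x a i
  nlinarith [norm_nonneg (x.1 i - a.1 i)]

theorem act_H (g : SU 2) (x p : X) :
    ‖H (g.1.1 *ᵥ x.1) p.1‖ = ‖(g.1.1 *ᵥ x.1) 2‖ * ‖H (g • x).1 p.1‖ := by
  rw [mulVec_eq g x, H_smul_left, norm_mul]
  congr 1
  simp [(g • x).2.1]

end Pool.Agent.Lib.MP_5d4057_al
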