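import Pool.Agent.Lib.MP_5d4057_al.Defs

namespace Pool.Agent.Lib.MP_5d4057_al

open Matrix

def SUGroup (m : ℕ) : Type := SU m

instance (m : ℕ) : Group (SUGroup m) := inferInstanceAs (Group (SU m))

instance (m : ℕ) : TopologicalSpace (SUGroup m) := inferInstanceAs (TopologicalSpace (SU m))

def SUGroup.toMatrix {m : ℕ} (g : SUGroup m) : Matrix (Fin (m + 1)) (Fin (m + 1)) ℂ := g.1.1

def SL2Z : Type := SpecialLinearGroup (Fin 2) ℤ

instance : Group SL2Z := inferInstanceAs (Group (SpecialLinearGroup (Fin 2) ℤ))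

def SL2Z.toMatrix (l : SL2Z) : Matrix (Fin 2) (Fin 2) ℂ := l.1.map fun n : ℤ => (n : ℂ)

def CayleyConj (g : SUGroup 1) (l : SL2Z) : Prop :=
  g.toMatrix * cayleyMatrix = cayleyMatrix * l.toMatrix

def IsArithmeticSU11 (Δ : Subgroup (SUGroup 1)) : Prop :=
  ∃ Λ : Subgroup SL2Z, Λ.FiniteIndex ∧ ∀ g : SUGroup 1, g ∈ Δ ↔ ∃ l ∈ Λ, CayleyConj g l

def IsAmalgamImage (A : Fin 2 → Type) [∀ j, Group (A j)] (C : Type) [Group C] {G : Type} [Group G]
    (Γ : Subgroup G) : Prop :=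
  ∃ ι : ∀ j, C →* A j, (∀ j, Function.Injective (ι j)) ∧
    ∃ ρ : Monoid.PushoutI ι →* G, ρ.range = Γ ∧
      ∀ j, Function.Injective (ρ.comp (Monoid.PushoutI.of j))

end Pool.Agent.Lib.MP_5d4057_al
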